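import Pool.Agent.H62.Dg4

set_option autoImplicit false

namespace Pool.Agent.Results.MP_5e3ef6_lc.Incomp

open Pool.Agent.H62.Pk

/-- DIAG is Weihrauch incomparable with DNC_n for every n at least 2 (n = 2 is the degree of weak
Koenig's lemma). -/
theorem result : ∀ n : ℕ, 2 ≤ n → ¬ WLe banRep baireRep (DNCn n) eqRep baireRep DIAG ∧
    ¬ WLe eqRep baireRep DIAG banRep baireRep (DNCn n) :=
  fun _ h => ⟨not_DNC h, not_le_n h⟩

end Pool.Agent.Results.MP_5e3ef6_lc.Incomp
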