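import Pool.Agent.H62.Dg5

set_option autoImplicit false

namespace Pool.Agent.Results.MP_5e3ef6_lc.LowerCN

open Pool.Agent.H62.Pk

/-- Closed choice on the natural numbers is Weihrauch reducible to DIAG. -/
theorem result : WLe coRep numRep ChN eqRep baireRep DIAG := CN_le

end Pool.Agent.Results.MP_5e3ef6_lc.LowerCN
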